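import Pool.Agent.H181.GwC

/-!
# MP_97806e_pr, Q1: an expansion of the annealed survival function at criticality does not force
smoothness.

`survival μ x` is the annealed survival function of Bernoulli(`x`) bond percolation on the
Galton-Watson tree with offspring law `μ` (`Pool.Agent.H181.GW.annealed`), extended by constants
outside `[0, 1]`.
-/

open MeasureTheory Filter Topology Asymptotics
open Pool.Agent.H181.GW

namespace Pool.Agent.Results.MP_97806e_pr.ExpansionNotC2

/-- `f` has an order-`k` expansion at `c⁺`. -/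
def HasExpansion (f : ℝ → ℝ) (c : ℝ) (k : ℕ) : Prop :=
  ∃ a : ℕ → ℝ, (fun ε : ℝ => f (c + ε) - ∑ j ∈ Finset.range (k + 1), a j * ε ^ j)
    =o[𝓝[>] 0] fun ε : ℝ => ε ^ k

/-- `f` is of class `C^k` at `c⁺`. -/
def ClassC (f : ℝ → ℝ) (c : ℝ) (k : ℕ) : Prop :=
  ∃ δ : ℝ, 0 < δ ∧ ContDiffOn ℝ k f (Set.Ico c (c + δ))

/-- There are an offspring law `μ` of finite mean `m > 1` and `k ≥ 1` such that the annealed
survival function has an order-`k` expansion at `p_c⁺ = (1 / m)⁺` but is not of class `C^k`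
there. -/
theorem result :
    ∃ (μ : Measure ℕ) (_ : IsProbabilityMeasure μ) (k : ℕ), 1 ≤ k ∧
      Integrable (fun n : ℕ => (n : ℝ)) μ ∧ 1 < ∫ n, (n : ℝ) ∂μ ∧
      HasExpansion (survival μ) (1 / ∫ n, (n : ℝ) ∂μ) k ∧
      ¬ ClassC (survival μ) (1 / ∫ n, (n : ℝ) ∂μ) k := by
  refine ⟨law, inferInstance, 2, by norm_num, integrable_law, ?_, ?_, ?_⟩
  · rw [mean_law]; linarith [m_ge]
  · rw [mean_law]
    refine ⟨fun _ => 0, ?_⟩
    simpa using survival_littleO (k := 2) (by norm_num)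
  · rw [mean_law]
    rintro ⟨δ, hδ, h⟩
    exact not_C2 δ hδ (by exact_mod_cast h)

end Pool.Agent.Results.MP_97806e_pr.ExpansionNotC2
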